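import Mathlib
import Pool.Agent.Lib.MP_5b5905_lc.Defs
import Pool.Agent.Lib.MP_5b5905_lc.Table

/-!
# The weakly reset property of Mealy automata is undecidable (problem MP_5b5905_lc, Q1)

The definitions are in `Pool.Agent.Lib.MP_5b5905_lc.Defs`. The proof is a reduction from the
halting problem of a fixed Turing machine (`Pool.Agent.Lib.Halt56.TM0`): the automaton of
`Pool.Agent.Lib.MP_5b5905_lc.Sys` simulates the machine by passes over the word
(`Pool.Agent.Lib.MP_5b5905_lc.Reduction`, `Pool.Agent.Lib.MP_5b5905_lc.Turing`), and
`Pool.Agent.Lib.MP_5b5905_lc.Table` computes its table.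
-/

namespace Pool.Agent.Results.MP_5b5905_lc.Undecidable

open Pool.Agent.Lib.MP_5b5905_lc

/-- No computable function decides, given the numbers of states and letters and the finite table
of the transition and output functions of a Mealy automaton, whether it is weakly reset. -/
theorem result : ¬ ∃ f : ℕ × ℕ × List (List (ℕ × ℕ)) → Bool, Computable f ∧
    ∀ (n m : ℕ) (T : List (List (ℕ × ℕ))) (h : IsTable n m T), 0 < n → 0 < m →
      (f (n, m, T) = true ↔ (ofTable n m T h).WeaklyReset) :=
  undecidable

end Pool.Agent.Results.MP_5b5905_lc.Undecidable
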